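import Pool.Agent.Run7.h970.Graph

set_option autoImplicit false

/-!
# A graph with a 3-colouring in which one pair of colour classes induces a forest, and whose
expansion has a superquadratic Turán number
-/

namespace Pool.Agent.Results.MP_c7cb83_co.OnePairForest

open Run7.h970

/-- The 3-graph `H` on `Fin n` contains a copy of the expansion of `G`. -/
def ContainsExpansion {k n : ℕ} (G : SimpleGraph (Fin k)) (H : Finset (Finset (Fin n))) : Prop :=
  ∃ f : Fin k → Fin n, ∃ g : Sym2 (Fin k) → Fin n,
    Function.Injective f ∧ Set.InjOn g G.edgeSet ∧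
    (∀ e ∈ G.edgeSet, ∀ v : Fin k, g e ≠ f v) ∧
    ∀ u v : Fin k, G.Adj u v → ({f u, f v, g s(u, v)} : Finset (Fin n)) ∈ H

/-- The colouring. -/
def col {M : ℕ} : W M → Fin 3
  | W.t c => c
  | W.a c _ => c
  | W.s c _ => c
  | W.r c _ => if c = 2 then 0 else 2

theorem col_r (c : Fin 3) : (if c = 2 then (0 : Fin 3) else 2) ≠ c := by revert c; decide

theorem col_ne {M : ℕ} (v w : W M) (h : par v w) : col v ≠ col w := by
  cases v <;> cases w <;> simp only [par, col] at h ⊢
  · exact (ne_of_lt h).symm
  · rename_i c _ c'
    rcases h with h | h <;> subst h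
    · exact (fin3_f c).symm
    · exact (fin3_g c).symm
  · rename_i c _ c' _
    rcases h with ⟨h, _⟩ | ⟨h, _⟩ <;> subst h
    · exact (fin3_f c).symm
    · exact (fin3_g c).symm
  · rename_i c _ c' _
    obtain ⟨h, _⟩ := h
    subst h
    exact col_r c'

/-- Inside the colours `0, 1` every vertex has at most one parent. -/
theorem par_unique {M : ℕ} (v w w' : W M) (hv : col v = 0 ∨ col v = 1)
    (hw : col w = 0 ∨ col w = 1) (hw' : col w' = 0 ∨ col w' = 1) (h : par v w) (h' : par v w') :
    w = w' := by
  cases v with
  | t c =>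
    cases w with
    | t c1 =>
      cases w' with
      | t c2 =>
        simp only [par, col] at *
        congr 1
        omega
      | a c2 i2 => exact h'.elim
      | s c2 i2 => exact h'.elim
      | r c2 i2 => exact h'.elim
    | a c1 i1 => exact h.elim
    | s c1 i1 => exact h.elim
    | r c1 i1 => exact h.elim
  | a c i =>
    cases w with
    | t c1 =>
      cases w' with
      | t c2 =>
        simp only [par, col] at *
        congr 1
        revert c c1 c2
        decide
      | a c2 i2 => exact h'.elim
      | s c2 i2 => exact h'.elim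
      | r c2 i2 => exact h'.elim
    | a c1 i1 => exact h.elim
    | s c1 i1 => exact h.elim
    | r c1 i1 => exact h.elim
  | s c p =>
    cases w with
    | t c1 => exact h.elim
    | a c1 i1 =>
      cases w' with
      | t c2 => exact h'.elim
      | a c2 i2 =>
        simp only [par, col] at *
        have hc : c1 = c2 := by
          have h3 : c1 = c + 1 ∨ c1 = c + 2 := by
            rcases h with h | h
            · exact Or.inl h.1
            · exact Or.inr h.1
          have h4 : c2 = c + 1 ∨ c2 = c + 2 := by
            rcases h' with h | h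
            · exact Or.inl h.1
            · exact Or.inr h.1
          clear h h'
          revert c c1 c2
          decide
        subst hc
        have h5 := fin3_e c
        rcases h with h | h <;> rcases h' with h' | h'
        · rw [h.2, h'.2]
        · exact absurd (h.1.symm.trans h'.1) h5
        · exact absurd (h'.1.symm.trans h.1) h5
        · rw [h.2, h'.2]
      | s c2 i2 => exact h'.elim
      | r c2 i2 => exact h'.elim
    | s c1 i1 => exact h.elim
    | r c1 i1 => exact h.elim
  | r c q =>
    cases w with
    | t c1 => exact h.elim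
    | a c1 i1 => exact h.elim
    | s c1 p1 =>
      exfalso
      simp only [par, col] at *
      rw [h.1] at hw
      clear h hw' h'
      revert c
      decide
    | r c1 i1 => exact h.elim

/-- The two colour classes `0, 1` induce a forest. -/
theorem forest (M : ℕ) : ((Gr M).induce {v : W M | col v = 0 ∨ col v = 1}).IsAcyclic := by
  classical
  intro u p hp
  obtain ⟨v, hv, hmax⟩ := Finset.exists_max_image p.support.toFinset
    (fun x => rk (x : W M)) ⟨u, by simp⟩
  rw [List.mem_toFinset] at hv
  have hq := hp.rotate hv
  set q := p.rotate v hv with hqdef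
  have hsup : ∀ x ∈ q.support, rk (x : W M) ≤ rk (v : W M) := by
    intro x hx
    have h1 : x ∈ p.support := (SimpleGraph.Walk.mem_support_rotate_iff _ _ _).mp hx
    exact hmax x (by rw [List.mem_toFinset]; exact h1)
  have a1 : (Gr M).Adj (v : W M) (q.snd : W M) := q.adj_snd hq.not_nil
  have a2 : (Gr M).Adj (q.penultimate : W M) (v : W M) := q.adj_penultimate hq.not_nil
  have b1 : rk (q.snd : W M) ≤ rk (v : W M) := hsup _ (q.getVert_mem_support 1)
  have b2 : rk (q.penultimate : W M) ≤ rk (v : W M) := hsup _ (q.getVert_mem_support (q.length - 1))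
  have c1 : par (v : W M) (q.snd : W M) := by
    rcases a1 with h | h
    · exact h
    · exact absurd (rk_lt _ _ h) (not_lt.mpr b1)
  have c2 : par (v : W M) (q.penultimate : W M) := by
    rcases a2 with h | h
    · exact absurd (rk_lt _ _ h) (not_lt.mpr b2)
    · exact h
  exact hq.snd_ne_penultimate (Subtype.ext
    (par_unique _ _ _ v.property q.snd.property q.penultimate.property c1 c2))

/-- The graph is not a counterexample to Q1 in its literal form (all three pairs of classes), but to
the form with one pair of classes. -/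
theorem result : ∃ (k : ℕ) (G : SimpleGraph (Fin k)),
    (∃ c : G.Coloring (Fin 3), ∃ i j : Fin 3, i ≠ j ∧
      (G.induce {v : Fin k | c v = i ∨ c v = j}).IsAcyclic) ∧
    (∀ S : Set (Fin k), S.Nonempty → ∃ v ∈ S, ({w : Fin k | w ∈ S ∧ G.Adj v w}).ncard ≤ 2) ∧
    ∀ C : ℝ, ∃ (n : ℕ) (H : Finset (Finset (Fin n))), (∀ e ∈ H, e.card = 3) ∧
      ¬ ContainsExpansion G H ∧ C * (n : ℝ) ^ 2 < (H.card : ℝ) := by
  classical
  obtain ⟨M, hM⟩ := exists_rel
  have : Fintype (W M) := Fintype.ofFinite _
  let e : W M ≃ Fin (Fintype.card (W M)) := Fintype.equivFin (W M)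
  let G : SimpleGraph (Fin (Fintype.card (W M))) := (Gr M).comap e.symm
  refine ⟨Fintype.card (W M), G, ?_, ?_, ?_⟩
  · refine ⟨SimpleGraph.Coloring.mk (fun v => col (e.symm v)) ?_, 0, 1, by decide, ?_⟩
    · intro v w h
      rcases h with h | h
      · exact col_ne _ _ h
      · exact (col_ne _ _ h).symm
    · have hf := forest M
      let φ : G.induce {v | col (e.symm v) = 0 ∨ col (e.symm v) = 1} →g
          (Gr M).induce {v : W M | col v = 0 ∨ col v = 1} :=
        { toFun := fun v => ⟨e.symm v.1, v.2⟩
          map_rel' := fun {a b} h => h }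
      refine hf.comap φ ?_
      intro a b hab
      have h1 : e.symm a.1 = e.symm b.1 := congrArg Subtype.val hab
      exact Subtype.ext (e.symm.injective h1)
  · intro S hS
    obtain ⟨v, hv, hcard⟩ := Gr_degenerate M (e.symm '' S) (hS.image _)
    obtain ⟨v', hv', rfl⟩ := hv
    refine ⟨v', hv', le_trans (le_of_eq ?_) hcard⟩
    rw [← Set.ncard_image_of_injective _ e.symm.injective]
    congr 1
    ext w
    constructor
    · rintro ⟨w', ⟨h1, h2⟩, rfl⟩
      exact ⟨⟨w', h1, rfl⟩, h2⟩
    · rintro ⟨⟨w', h1, rfl⟩, h2⟩
      exact ⟨w', ⟨h1, h2⟩, rfl⟩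
  · intro C
    obtain ⟨N, R, hsymm, hconf, hcount⟩ := hM (9 * C)
    refine ⟨3 * N, HH R, HH_uniform R, ?_, ?_⟩
    · rintro ⟨f, g, hf, -, -, hg⟩
      refine hconf (conf_of_copy R hsymm (fun v => f (e v)) (fun u v => g s(e u, e v))
        (hf.comp e.injective) ?_)
      intro u v huv
      refine hg (e u) (e v) ?_
      show (Gr M).Adj (e.symm (e u)) (e.symm (e v))
      rw [e.symm_apply_apply, e.symm_apply_apply]
      exact huv
    · rw [HH_card]
      push_cast
      have h2 : C * (3 * (N : ℝ)) ^ 2 = 9 * C * (N : ℝ) ^ 2 := by ring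
      rw [h2]
      exact hcount

end Pool.Agent.Results.MP_c7cb83_co.OnePairForest
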